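import Pool.Agent.Helper76.TK2.StA
import Pool.Agent.Helper28.WK.M_Ta2

/-!
# Project TK2, module TA2: Theorem A for the twisted path, level `2^m`
-/

set_option autoImplicit false

namespace Pool.Agent.Helper34.TK2

open Pool.Agent.Helper76.TK2 Pool.Agent.Helper14.CV Pool.Agent.Helper14.TT
open Pool.Agent.Helper76.TX (evX)
open Pool.Agent.Helper28.WK (SymP symP_two)

section Maps

variable {R S : Type} [AddCommGroup R] [AddCommGroup S]

private theorem eqC_map (f : R →+ S) {G H : ℤ → ℤ → R} (h : EqC G H) :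
    EqC (fun p q => f (G p q)) (fun p q => f (H p q)) := by
  obtain ⟨c, hc⟩ := h
  exact ⟨f c, fun p q hpq => by simp only [hc p q hpq, map_add]⟩

private theorem sym_map (f : R →+ S) {r s : ℕ} {G : ℤ → ℤ → R} (h : Sym r s G) :
    Sym r s (fun p q => f (G p q)) := by
  refine ⟨fun k p q hk hpq => ?_, fun a b c d hd hb hc => ?_⟩
  · change f (G (k * p) (k * q)) = f (G p q)
    rw [h.1 k p q hk hpq]
  · exact eqC_map f (h.2 a b c d hd hb hc)

end Maps

private theorem exists_inv (M : ℕ) {d : ℤ} (hd : Odd d) :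
    ∃ e : ℤ, ((e : ℤ) : ZMod (2 ^ M)) * ((d : ℤ) : ZMod (2 ^ M)) = 1 := by
  have h1 : IsCoprime d ((2 : ℤ) ^ M) := by
    apply IsCoprime.pow_right
    rw [Int.isCoprime_iff_gcd_eq_one]
    exact Int.isCoprime_iff_gcd_eq_one.1 (Int.isCoprime_two_right.2 hd)
  obtain ⟨a, b, hab⟩ := h1
  refine ⟨a, ?_⟩
  have h2 := congrArg (fun x : ℤ => (x : ZMod (2 ^ M))) hab
  simp only [Int.cast_add, Int.cast_mul, Int.cast_pow, Int.cast_ofNat, Int.cast_one] at h2
  have h3 : ((2 : ZMod (2 ^ M)) ^ M) = 0 := by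
    have := ZMod.natCast_self (2 ^ M)
    exact_mod_cast this
  rw [h3, mul_zero, add_zero] at h2
  exact h2

private theorem jac_two {D : ℕ} (h : D % 4 = 3) : jacobiSym 2 D = 1 ∨ jacobiSym 2 D = -1 := by
  apply jacobiSym.eq_one_or_neg_one
  have h1 : Nat.Coprime 2 D := by
    rw [Nat.coprime_two_left, Nat.odd_iff]
    omega
  exact_mod_cast h1

theorem hTa2 : StTA2 := by
  intro nrm hsg com hunb crm kk int D m M g hD hm hg hW hs hg0
  have hD4 : D % 4 = 3 := (okd_mod hD).1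
  have hD0 : D ≠ 0 := by
    rintro rfl
    simp at hD4
  obtain ⟨d, G1, hd, hG1, hG10, hG1g⟩ := crm D m M g hD hm hg hg0
  -- the sign
  obtain ⟨κ, hκ⟩ : ∃ κ : ℤ, κ = -(wT D m) := ⟨_, rfl⟩
  have hκ2 : κ * κ = 1 := by
    have h1 : κ = (jacobiSym 2 D) ^ m := by
      rw [hκ]
      unfold wT
      rw [neg_neg]
    rw [h1, ← mul_pow]
    rcases jac_two hD4 with h | h
    · rw [h]
      simp
    · rw [h]
      simp
  have hc : jacobiSym 2 D = 1 ∨ jacobiSym 2 D = -1 := jac_two hD4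
  rw [← neg_smul, ← hκ] at hW
  -- the integral symbol
  set H1 : ℤ → ℤ → ℤ := G1 + κ • act 0 (-1) (2 ^ m) 0 G1 with hH1
  set G2 : ℤ → ℤ → ℤ := H1 - act (-1) 0 0 1 H1 with hG2
  -- complexification
  set GC : ℤ → ℤ → ℂ := fun p q => ((G1 p q : ℤ) : ℂ) with hGC
  set HC : ℤ → ℤ → ℂ := GC + κ • act 0 (-1) (2 ^ m) 0 GC with hHC
  have e1 : (fun p q => ((G2 p q : ℤ) : ℂ)) = HC - act (-1) 0 0 1 HC := by
    funext p q
    simp only [hG2, hH1, hHC, hGC, act, Pi.add_apply, Pi.sub_apply, Pi.smul_apply]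
    simp only [zsmul_eq_mul, smul_eq_mul, Int.cast_add, Int.cast_sub, Int.cast_mul]
  have sGC : Sym 0 m GC := sym_map (Int.castAddHom ℂ) hG1
  have evGC : evX D GC = 0 := by
    funext i j
    have e0 : (fun p q => ((G1 (2 ^ 0 * p) q : ℤ) : ℂ)) = GC := by
      funext p q
      rw [pow_zero, one_mul]
    have h1 := (hunb D 0 m G1 hD0 hG1).2 i j
    rw [e0, show ((2 : ℤ) ^ 0) = 1 from pow_zero 2, hG10 i j] at h1
    rw [h1]
    exact Int.cast_zero
  have hm2 : 2 ≤ m := by omega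
  have detW : (0 : ℤ) * 0 - (-1) * 2 ^ m ≠ 0 := by
    simp
  have detS : (-1 : ℤ) * 1 - 0 * 0 ≠ 0 := by norm_num
  have sWGC : Sym 0 m (act 0 (-1) (2 ^ m) 0 GC) := (nrm m GC hm2 sGC).1
  have sHC : Sym 0 m HC := sGC.add (sWGC.smul κ)
  have sSHC : Sym 0 m (act (-1) 0 0 1 HC) := (nrm m HC hm2 sHC).2.2.2
  have hWH : EqC (act 0 (-1) (2 ^ m) 0 HC) (κ • HC) := by
    have h1 : EqC (act 0 (-1) (2 ^ m) 0 (act 0 (-1) (2 ^ m) 0 GC)) GC := (com m GC hm sGC).2.2.1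
    have h2 : act 0 (-1) (2 ^ m) 0 HC =
        act 0 (-1) (2 ^ m) 0 GC + κ • act 0 (-1) (2 ^ m) 0 (act 0 (-1) (2 ^ m) 0 GC) := rfl
    have h3 : κ • HC = act 0 (-1) (2 ^ m) 0 GC + κ • GC := by
      rw [hHC, smul_add, smul_smul, hκ2, one_smul, add_comm]
    rw [h2, h3]
    exact (EqC.refl _).add (h1.smul κ)
  have hWSH : EqC (act 0 (-1) (2 ^ m) 0 (act (-1) 0 0 1 HC)) (κ • act (-1) 0 0 1 HC) := by
    have h1 := (com m HC hm sHC).2.2.2.2.2.2.2.2.2
    exact h1.trans (hWH.act detS)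
  have hSSH : EqC (act (-1) 0 0 1 (act (-1) 0 0 1 HC)) HC := (com m HC hm sHC).2.2.2.1
  have evHC : evX D HC = 0 := by
    rw [hHC, map_add, map_zsmul, (hsg D m GC hD4 hm2 sGC).1, evGC]
    simp
  have evSHC : evX D (act (-1) 0 0 1 HC) = 0 := by
    rw [(hsg D m HC hD4 hm2 sHC).2, evHC, neg_zero]
  have sH2 : Sym 0 m (HC - act (-1) 0 0 1 HC) := by
    rw [sub_eq_add_neg]
    exact sHC.add sSHC.neg
  obtain ⟨ψ, sψ, hψ⟩ := kk D m (HC - act (-1) 0 0 1 HC) hD hm sH2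
    (by
      rw [← neg_smul, ← hκ, smul_sub]
      exact hWH.sub hWSH)
    (by
      rw [neg_sub]
      exact (EqC.refl _).sub hSSH)
    (by rw [map_sub, evHC, evSHC, sub_zero])
  rw [← e1] at hψ
  obtain ⟨ψ', sψ', hψ'⟩ := int 2 (m - 1) (jacobiSym 2 D) ψ G2 le_rfl hc ((symP_two 0 (m - 1) ψ).2 sψ)
    (by simpa only [Nat.cast_ofNat] using hψ)
  rw [symP_two] at sψ'
  simp only [Nat.cast_ofNat] at hψ'
  -- reduction
  obtain ⟨e, he⟩ := exists_inv M hd
  let c : ℤ →+ ZMod (2 ^ M) := Int.castAddHom (ZMod (2 ^ M))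
  set g1 : ℤ → ℤ → ZMod (2 ^ M) := fun p q => ((G1 p q : ℤ) : ZMod (2 ^ M)) with hg1
  set ψm : ℤ → ℤ → ZMod (2 ^ M) := fun p q => ((ψ' p q : ℤ) : ZMod (2 ^ M)) with hψm
  have sψm : Sym 0 (m - 1) ψm := sym_map c sψ'
  have e2 : EqC (jacobiSym 2 D • act 2 0 0 1 ψm - ψm)
      ((g1 + κ • act 0 (-1) (2 ^ m) 0 g1) - act (-1) 0 0 1 (g1 + κ • act 0 (-1) (2 ^ m) 0 g1)) := by
    have h1 := eqC_map c hψ'
    have h2 : (fun p q => c ((jacobiSym 2 D • act 2 0 0 1 ψ' - ψ') p q)) =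
        jacobiSym 2 D • act 2 0 0 1 ψm - ψm := by
      funext p q
      simp only [c, hψm, act, Pi.sub_apply, Pi.smul_apply, Int.coe_castAddHom]
      simp only [zsmul_eq_mul, smul_eq_mul, Int.cast_sub, Int.cast_mul]
    have h3 : (fun p q => c (G2 p q)) =
        ((g1 + κ • act 0 (-1) (2 ^ m) 0 g1) - act (-1) 0 0 1 (g1 + κ • act 0 (-1) (2 ^ m) 0 g1)) := by
      funext p q
      simp only [c, hg1, hG2, hH1, act, Pi.add_apply, Pi.sub_apply, Pi.smul_apply, Int.coe_castAddHom]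
      simp only [zsmul_eq_mul, smul_eq_mul, Int.cast_add, Int.cast_sub, Int.cast_mul]
    rw [h2, h3] at h1
    exact h1
  have h4 : EqC (g1 + κ • act 0 (-1) (2 ^ m) 0 g1) (d • g + d • g) := by
    have h5 : EqC (κ • act 0 (-1) (2 ^ m) 0 g1) (d • g) := by
      have h6 : EqC (act 0 (-1) (2 ^ m) 0 g1) (d • (κ • g)) := by
        refine (hG1g.act detW).trans ?_
        rw [act_smul]
        exact hW.smul d
      have h7 := h6.smul κ
      have h8 : κ • (d • (κ • g)) = d • g := by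
        rw [smul_smul, smul_smul, show κ * d * κ = d * (κ * κ) by ring, hκ2, mul_one]
      rwa [h8] at h7
    exact hG1g.add h5
  have h7 : EqC (act (-1) 0 0 1 (g1 + κ • act 0 (-1) (2 ^ m) 0 g1)) (-(d • g + d • g)) := by
    refine (h4.act detS).trans ?_
    rw [act_add, act_smul, neg_add, ← smul_neg]
    exact (hs.smul d).add (hs.smul d)
  have h8 : EqC (jacobiSym 2 D • act 2 0 0 1 ψm - ψm) ((d • g + d • g) - -(d • g + d • g)) :=
    e2.trans (h4.sub h7)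
  refine ⟨e • ψm, sψm.smul e, ?_⟩
  have h9 := h8.smul e
  rw [smul_sub, smul_comm e (jacobiSym 2 D), ← act_smul] at h9
  refine h9.trans (EqC.of_eq fun p q _ => ?_)
  have h10 : (e • (d • g + d • g - -(d • g + d • g))) p q =
      (e : ZMod (2 ^ M)) * (((d : ℤ) : ZMod (2 ^ M)) * g p q + (d : ZMod (2 ^ M)) * g p q -
        -((d : ZMod (2 ^ M)) * g p q + (d : ZMod (2 ^ M)) * g p q)) := by
    simp only [← zsmul_eq_mul]
    rfl
  have h11 : ((4 : ℤ) • g) p q = 4 * g p q := by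
    have : ((4 : ℤ) • g) p q = (4 : ℤ) • (g p q) := rfl
    rw [this, zsmul_eq_mul]
    norm_num
  rw [h10, h11]
  linear_combination (4 * g p q) * he

end Pool.Agent.Helper34.TK2
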